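import Mathlib

/-!
# Dismantling solutions in thin cuboids

We decide the three statements of the problem: (a) is true, (b) and (c) are false.

* `C(2,2,k)` has no solution for `k ≥ 3`, `k ≠ 5`.
* `C(2,3,9)` has a solution, and `C(3,3,6)` has a solution.
-/

set_option autoImplicit false

namespace Pool.Agent.Results.MP_93d976_co.ThinCuboids

open Finset

/-- Unit cubes. -/
abbrev Cube := ℕ × ℕ × ℕ

/-- The box `C(k,l,m)`. -/
def box (k l m : ℕ) : Finset Cube := Icc 1 k ×ˢ (Icc 1 l ×ˢ Icc 1 m)

/-- Two cubes are neighbours when their coordinate vectors differ by `1` in exactly one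
coordinate. -/
def Nbr (p q : Cube) : Prop :=
  (p.2.1 = q.2.1 ∧ p.2.2 = q.2.2 ∧ (q.1 = p.1 + 1 ∨ p.1 = q.1 + 1)) ∨
  (p.1 = q.1 ∧ p.2.2 = q.2.2 ∧ (q.2.1 = p.2.1 + 1 ∨ p.2.1 = q.2.1 + 1)) ∨
  (p.1 = q.1 ∧ p.2.1 = q.2.1 ∧ (q.2.2 = p.2.2 + 1 ∨ p.2.2 = q.2.2 + 1))

instance : DecidableRel Nbr := fun p q => by unfold Nbr; infer_instance

/-- The positions which can be reached from `S₀` by moves: delete a cube with exactly three
neighbours in the current position. -/
inductive Reach (S₀ : Finset Cube) : Finset Cube → Prop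
  | start : Reach S₀ S₀
  | move {S : Finset Cube} {v : Cube} : Reach S₀ S → v ∈ S →
      (S.filter fun w => Nbr v w).card = 3 → Reach S₀ (S.erase v)

/-- `S` is a solution in `C(k,l,m)`. -/
def IsSolution (k l m : ℕ) (S : Finset Cube) : Prop :=
  Reach (box k l m) S ∧ ∀ v ∈ S, ∀ w ∈ S, ¬ Nbr v w

/-- `C(k,l,m)` has a solution. -/
def HasSolution (k l m : ℕ) : Prop := ∃ S, IsSolution k l m S

/-! ### Explicit solutions -/

/-- Play a list of moves. -/
def play (S : Finset Cube) : List Cube → Option (Finset Cube)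
  | [] => some S
  | v :: l => if v ∈ S ∧ (S.filter fun w => Nbr v w).card = 3 then play (S.erase v) l else none

theorem play_reach (S₀ : Finset Cube) : ∀ (l : List Cube) (S S' : Finset Cube), Reach S₀ S →
    play S l = some S' → Reach S₀ S' := by
  intro l
  induction l with
  | nil =>
    intro S S' h h'
    simp only [play, Option.some.injEq] at h'
    rw [← h']
    exact h
  | cons v l ih =>
    intro S S' h h'
    unfold play at h'
    split_ifs at h' with hc
    exact ih _ _ (Reach.move h hc.1 hc.2) h'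

/-- The check of an explicit solution. -/
def check (k l m : ℕ) (moves : List Cube) : Bool :=
  match play (box k l m) moves with
  | none => false
  | some S => decide (∀ v ∈ S, ∀ w ∈ S, ¬ Nbr v w)

theorem check_spec (k l m : ℕ) (moves : List Cube) (h : check k l m moves = true) :
    HasSolution k l m := by
  unfold check at h
  cases hp : play (box k l m) moves with
  | none => simp [hp] at h
  | some S =>
    rw [hp] at h
    exact ⟨S, play_reach _ moves _ _ Reach.start hp, of_decide_eq_true h⟩

/-- Moves in `C(2,3,9)`. -/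
def moves239 : List Cube :=
  [(1, 3, 9), (1, 3, 8), (2, 3, 8), (1, 3, 7), (1, 3, 6), (2, 3, 6), (1, 3, 5), (1, 3, 4),
   (2, 3, 4), (1, 3, 3), (1, 3, 1), (1, 1, 9), (1, 1, 1), (1, 1, 2), (1, 1, 3), (1, 2, 3),
   (1, 2, 4), (1, 2, 5), (1, 2, 6), (1, 1, 5), (2, 1, 5), (2, 1, 6), (2, 1, 7), (2, 1, 8),
   (2, 2, 8), (2, 2, 9), (2, 2, 7), (1, 2, 8), (1, 1, 7), (2, 2, 5), (2, 1, 4), (1, 2, 2),
   (2, 1, 2), (2, 2, 2), (2, 2, 3), (2, 3, 2), (2, 2, 1)]

/-- Moves in `C(3,3,6)`. -/
def moves336 : List Cube :=
  [(3, 3, 1), (3, 1, 1), (3, 1, 2), (3, 1, 3), (3, 1, 4), (3, 1, 5), (2, 1, 1), (2, 1, 2),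
   (1, 1, 2), (1, 1, 3), (1, 3, 1), (1, 3, 2), (1, 3, 3), (1, 3, 4), (1, 3, 5), (1, 2, 3),
   (1, 2, 4), (1, 2, 1), (2, 2, 1), (1, 1, 6), (1, 2, 6), (2, 1, 6), (2, 2, 6), (2, 3, 6),
   (2, 3, 5), (3, 3, 5), (2, 3, 4), (2, 3, 3), (3, 3, 3), (2, 3, 2), (2, 2, 2), (2, 2, 3),
   (2, 2, 4), (2, 2, 5), (3, 2, 4), (2, 1, 4), (3, 2, 2), (3, 2, 6), (1, 1, 5)]

theorem sol239 : HasSolution 2 3 9 := check_spec _ _ _ moves239 (by decide +kernel)

theorem sol336 : HasSolution 3 3 6 := check_spec _ _ _ moves336 (by decide +kernel)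

/-! ### The boxes `C(2,2,k)` -/

theorem nbr_irrefl (v : Cube) : ¬ Nbr v v := by
  unfold Nbr
  omega

theorem nbr_symm (v w : Cube) (h : Nbr v w) : Nbr w v := by
  unfold Nbr at h ⊢
  omega

/-- The removal times. -/
theorem exists_time (S₀ S : Finset Cube) (h : Reach S₀ S) :
    ∃ (T : Cube → ℕ) (N : ℕ), S ⊆ S₀ ∧ (∀ u ∈ S, T u = N) ∧ (∀ u ∈ S₀, u ∉ S → T u < N) ∧
      (∀ u ∈ S₀, u ∉ S → (S₀.filter fun w => Nbr u w ∧ T u < T w).card = 3) ∧
      (∀ u ∈ S₀, u ∉ S → ∀ w ∈ S₀, w ≠ u → T u ≠ T w) := by
  induction h with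
  | start =>
    exact ⟨fun _ => 0, 0, Subset.refl _, fun _ _ => rfl, fun u h h' => absurd h h',
      fun u h h' => absurd h h', fun u h h' => absurd h h'⟩
  | @move S v _ hv hcard ih =>
    obtain ⟨T, N, h1, h2, h3, h4, h5⟩ := ih
    refine ⟨fun w => if w ∈ S.erase v then N + 1 else T w, N + 1, ?_, ?_, ?_, ?_, ?_⟩
    · exact (erase_subset _ _).trans h1
    · intro u hu
      simp only [hu, if_true]
    · intro u hu hu'
      simp only [hu', if_false]
      by_cases hS : u ∈ S
      · rw [h2 u hS]
        omega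
      · have := h3 u hu hS
        omega
    · intro u hu hu'
      by_cases hS : u ∈ S
      · have huv : u = v := by
          by_contra hne
          exact hu' (mem_erase.2 ⟨hne, hS⟩)
        subst huv
        rw [← hcard]
        congr 1
        ext w
        simp only [mem_filter, hu', if_false]
        constructor
        · rintro ⟨hw, hn, hlt⟩
          by_cases hw' : w ∈ S.erase u
          · exact ⟨mem_of_mem_erase hw', hn⟩
          · rw [if_neg hw', h2 u hv] at hlt
            exfalso
            by_cases hwS : w ∈ S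
            · rw [h2 w hwS] at hlt
              omega
            · have := h3 w hw hwS
              omega
        · rintro ⟨hw, hn⟩
          have hwu : w ≠ u := by
            rintro rfl
            exact nbr_irrefl _ hn
          have hw' : w ∈ S.erase u := mem_erase.2 ⟨hwu, hw⟩
          refine ⟨h1 hw, hn, ?_⟩
          rw [if_pos hw', h2 u hv]
          omega
      · rw [← h4 u hu hS]
        congr 1
        ext w
        simp only [mem_filter, hu', if_false]
        constructor
        · rintro ⟨hw, hn, hlt⟩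
          refine ⟨hw, hn, ?_⟩
          by_cases hw' : w ∈ S.erase v
          · rw [h2 w (mem_of_mem_erase hw')]
            exact h3 u hu hS
          · rw [if_neg hw'] at hlt
            exact hlt
        · rintro ⟨hw, hn, hlt⟩
          refine ⟨hw, hn, ?_⟩
          by_cases hw' : w ∈ S.erase v
          · rw [if_pos hw']
            have := h3 u hu hS
            omega
          · rw [if_neg hw']
            exact hlt
    · intro u hu hu' w hw hwu
      simp only [hu', if_false]
      by_cases hS : u ∈ S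
      · have huv : u = v := by
          by_contra hne
          exact hu' (mem_erase.2 ⟨hne, hS⟩)
        subst huv
        by_cases hw' : w ∈ S.erase u
        · rw [if_pos hw', h2 u hv]
          omega
        · rw [if_neg hw', h2 u hv]
          have hwS : w ∉ S := fun h => hw' (mem_erase.2 ⟨hwu, h⟩)
          have := h3 w hw hwS
          omega
      · by_cases hw' : w ∈ S.erase v
        · rw [if_pos hw']
          have := h3 u hu hS
          omega
        · rw [if_neg hw']
          exact h5 u hu hS w hw hwu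

/-- The number of `true`s is `0` or `3`. -/
def cok (p q r s : Bool) : Bool :=
  p.toNat + q.toNat + r.toNat + s.toNat == 0 || p.toNat + q.toNat + r.toNat + s.toNat == 3

/-- The conditions at one layer: `d` are the arcs downwards, `h` the arcs of the layer, `u` the arcs
upwards. -/
def lay (dA dB dC dD ab bc cd da uA uB uC uD : Bool) : Bool :=
  cok dA ab (!da) uA && cok dB (!ab) bc uB && cok dC (!bc) cd uC && cok dD (!cd) da uD &&
    !(ab && bc && cd && da) && !(!ab && !bc && !cd && !da)

/-- No directed cycle of length four on the side faces between two layers. -/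
def face (uA uB ab ab' : Bool) : Bool := !(uA && ab' && !uB && !ab) && !(uB && !ab' && !uA && ab)

/-- No directed cycle of length six through `x, y, z` in the lower layer and `z, w, x` in the upper
layer. -/
def hexa (uX uZ xy yz zw wx : Bool) : Bool :=
  !(xy && yz && uZ && zw && wx && !uX) && !(!xy && !yz && uX && !wx && !zw && !uZ)

/-- The state after the first layer. -/
def P1 (uA uB uC uD : Bool) : Bool := (uA && !uB && uC && !uD) || (!uA && uB && !uC && uD)

/-- The state after the second layer. -/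
def P2 (uA uB uC uD : Bool) : Bool :=
  uA.toNat + uB.toNat + uC.toNat + uD.toNat == 3 || uA.toNat + uB.toNat + uC.toNat + uD.toNat == 0

/-- The state after the third layer. -/
def P3 (uA uB uC uD : Bool) : Bool := uA.toNat + uB.toNat + uC.toNat + uD.toNat == 1

theorem step1 : ∀ ab bc cd da uA uB uC uD : Bool,
    lay false false false false ab bc cd da uA uB uC uD = true → P1 uA uB uC uD = true := by
  decide +kernel

theorem step2 : ∀ a b c d : Bool, P1 a b c d = true → ∀ ab bc cd da uA uB uC uD : Bool,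
    lay (!a) (!b) (!c) (!d) ab bc cd da uA uB uC uD = true → P2 uA uB uC uD = true := by
  decide +kernel

theorem step3 : ∀ a b c d : Bool, P2 a b c d = true → ∀ ab bc cd da uA uB uC uD : Bool,
    lay (!a) (!b) (!c) (!d) ab bc cd da uA uB uC uD = true → P3 uA uB uC uD = true := by
  decide +kernel

theorem end4 : ∀ a b c d : Bool, P3 a b c d = true → ∀ ab bc cd da : Bool,
    lay (!a) (!b) (!c) (!d) ab bc cd da false false false false = true → False := by
  decide +kernel

theorem step5 : ∀ a b c d : Bool, P3 a b c d = true → ∀ ab bc cd da uA uB uC uD : Bool,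
    lay (!a) (!b) (!c) (!d) ab bc cd da uA uB uC uD = true →
    ∀ ab' bc' cd' da' vA vB vC vD : Bool,
    lay (!uA) (!uB) (!uC) (!uD) ab' bc' cd' da' vA vB vC vD = true →
    face uA uB ab ab' = true → face uB uC bc bc' = true → face uC uD cd cd' = true →
    face uD uA da da' = true →
    hexa uA uC ab bc cd' da' = true → hexa uC uA cd da ab' bc' = true →
    hexa uB uD bc cd da' ab' = true → hexa uD uB da ab bc' cd' = true →
    vA = false ∧ vB = false ∧ vC = false ∧ vD = false := by
  decide +kernel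

theorem end6 : ∀ ab bc cd da uA uB uC uD : Bool,
    lay true true true true ab bc cd da uA uB uC uD = true → False := by
  decide +kernel

theorem mem_box22 (k x y z : ℕ) : (x, y, z) ∈ box 2 2 k ↔
    (1 ≤ x ∧ x ≤ 2) ∧ (1 ≤ y ∧ y ≤ 2) ∧ (1 ≤ z ∧ z ≤ k) := by
  simp [box]

/-- The condition at one cube, in terms of its at most four neighbours. -/
theorem degree (k : ℕ) (T : Cube → ℕ) (x y z : ℕ) (hx : 1 ≤ x ∧ x ≤ 2) (hy : 1 ≤ y ∧ y ≤ 2)
    (hz : 1 ≤ z ∧ z ≤ k) :
    ((box 2 2 k).filter fun w => Nbr (x, y, z) w ∧ T (x, y, z) < T w).card =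
      (decide (2 ≤ z ∧ T (x, y, z) < T (x, y, z - 1))).toNat +
      (decide (T (x, y, z) < T (3 - x, y, z))).toNat +
      (decide (T (x, y, z) < T (x, 3 - y, z))).toNat +
      (decide (z < k ∧ T (x, y, z) < T (x, y, z + 1))).toNat := by
  have hset : ((box 2 2 k).filter fun w => Nbr (x, y, z) w ∧ T (x, y, z) < T w) =
      ({(x, y, z - 1), (3 - x, y, z), (x, 3 - y, z), (x, y, z + 1)} : Finset Cube).filter
        (fun w => w ∈ box 2 2 k ∧ T (x, y, z) < T w) := by
    ext ⟨a, b, c⟩
    simp only [mem_filter, mem_insert, mem_singleton, Prod.mk.injEq, mem_box22, Nbr]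
    constructor
    · rintro ⟨h1, h2, h3⟩
      refine ⟨?_, h1, h3⟩
      omega
    · rintro ⟨h1, h2, h3⟩
      refine ⟨h2, ?_, h3⟩
      omega
  rw [hset, filter_insert, filter_insert, filter_insert, filter_singleton]
  have e1 : (x, y, z - 1) ∈ box 2 2 k ↔ 2 ≤ z := by rw [mem_box22]; omega
  have e2 : (3 - x, y, z) ∈ box 2 2 k := by rw [mem_box22]; omega
  have e3 : (x, 3 - y, z) ∈ box 2 2 k := by rw [mem_box22]; omega
  have e4 : (x, y, z + 1) ∈ box 2 2 k ↔ z < k := by rw [mem_box22]; omega
  have n12 : ((x, y, z - 1) : Cube) ≠ (3 - x, y, z) := by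
    intro e; simp only [Prod.mk.injEq] at e; omega
  have n13 : ((x, y, z - 1) : Cube) ≠ (x, 3 - y, z) := by
    intro e; simp only [Prod.mk.injEq] at e; omega
  have n14 : ((x, y, z - 1) : Cube) ≠ (x, y, z + 1) := by
    intro e; simp only [Prod.mk.injEq] at e; omega
  have n23 : ((3 - x, y, z) : Cube) ≠ (x, 3 - y, z) := by
    intro e; simp only [Prod.mk.injEq] at e; omega
  have n24 : ((3 - x, y, z) : Cube) ≠ (x, y, z + 1) := by
    intro e; simp only [Prod.mk.injEq] at e; omega
  have n34 : ((x, 3 - y, z) : Cube) ≠ (x, y, z + 1) := by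
    intro e; simp only [Prod.mk.injEq] at e; omega
  simp only [e1, e2, e3, e4, true_and]
  by_cases c1 : 2 ≤ z ∧ T (x, y, z) < T (x, y, z - 1) <;>
    by_cases c2 : T (x, y, z) < T (3 - x, y, z) <;>
    by_cases c3 : T (x, y, z) < T (x, 3 - y, z) <;>
    by_cases c4 : z < k ∧ T (x, y, z) < T (x, y, z + 1) <;>
    simp [c1, c2, c3, c4, n12, n13, n14, n23, n24, n34]

/-- There is no solution in `C(2,2,k)` for `k ≥ 3`, `k ≠ 5`. -/
theorem no22 (k : ℕ) (hk : 3 ≤ k) (hk5 : k ≠ 5) : ¬ HasSolution 2 2 k := by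
  rintro ⟨S, hR, hI⟩
  obtain ⟨T, N, h1, h2, h3, h4, h5⟩ := exists_time _ _ hR
  -- times of neighbours differ
  have hne : ∀ u ∈ box 2 2 k, ∀ w ∈ box 2 2 k, Nbr u w → T u ≠ T w := by
    intro u hu w hw hn
    by_cases huS : u ∈ S
    · by_cases hwS : w ∈ S
      · exact absurd hn (hI u huS w hwS)
      · exact (h5 w hw hwS u hu (by rintro rfl; exact nbr_irrefl _ hn)).symm
    · exact h5 u hu huS w hw (by rintro rfl; exact nbr_irrefl _ hn)
  -- degrees
  have hdeg : ∀ u ∈ box 2 2 k, ((box 2 2 k).filter fun w => Nbr u w ∧ T u < T w).card = 0 ∨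
      ((box 2 2 k).filter fun w => Nbr u w ∧ T u < T w).card = 3 := by
    intro u hu
    by_cases huS : u ∈ S
    · left
      rw [card_eq_zero, filter_eq_empty_iff]
      rintro w hw ⟨_, hlt⟩
      rw [h2 u huS] at hlt
      by_cases hwS : w ∈ S
      · rw [h2 w hwS] at hlt
        omega
      · have := h3 w hw hwS
        omega
    · right
      exact h4 u hu huS
  -- bits
  let L : Cube → Cube → Bool := fun u w => decide (T u < T w)
  have hL : ∀ u ∈ box 2 2 k, ∀ w ∈ box 2 2 k, Nbr u w → L w u = !L u w := by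
    intro u hu w hw hn
    have := hne u hu w hw hn
    simp only [L]
    by_cases h : T u < T w
    · have h' : ¬ T w < T u := by omega
      simp [h, h']
    · have h' : T w < T u := by omega
      simp [h, h']
  -- the four columns
  let A : ℕ → Cube := fun z => (1, 1, z)
  let B : ℕ → Cube := fun z => (2, 1, z)
  let C : ℕ → Cube := fun z => (2, 2, z)
  let D : ℕ → Cube := fun z => (1, 2, z)
  have hlay : ∀ z, 1 ≤ z → z ≤ k →
      lay (decide (2 ≤ z) && L (A z) (A (z - 1))) (decide (2 ≤ z) && L (B z) (B (z - 1)))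
        (decide (2 ≤ z) && L (C z) (C (z - 1))) (decide (2 ≤ z) && L (D z) (D (z - 1)))
        (L (A z) (B z)) (L (B z) (C z)) (L (C z) (D z)) (L (D z) (A z))
        (decide (z < k) && L (A z) (A (z + 1))) (decide (z < k) && L (B z) (B (z + 1)))
        (decide (z < k) && L (C z) (C (z + 1))) (decide (z < k) && L (D z) (D (z + 1))) = true := by
    intro z hz hzk
    have mA : A z ∈ box 2 2 k := by rw [mem_box22]; omega
    have mB : B z ∈ box 2 2 k := by rw [mem_box22]; omega
    have mC : C z ∈ box 2 2 k := by rw [mem_box22]; omega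
    have mD : D z ∈ box 2 2 k := by rw [mem_box22]; omega
    have nAB : Nbr (A z) (B z) := by simp [A, B, Nbr]
    have nBC : Nbr (B z) (C z) := by simp [B, C, Nbr]
    have nCD : Nbr (C z) (D z) := by simp [C, D, Nbr]
    have nDA : Nbr (D z) (A z) := by simp [D, A, Nbr]
    have dA := hdeg _ mA
    have dB := hdeg _ mB
    have dC := hdeg _ mC
    have dD := hdeg _ mD
    rw [degree k T 1 1 z (by omega) (by omega) ⟨hz, hzk⟩, Bool.decide_and, Bool.decide_and] at dA
    rw [degree k T 2 1 z (by omega) (by omega) ⟨hz, hzk⟩, Bool.decide_and, Bool.decide_and] at dB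
    rw [degree k T 2 2 z (by omega) (by omega) ⟨hz, hzk⟩, Bool.decide_and, Bool.decide_and] at dC
    rw [degree k T 1 2 z (by omega) (by omega) ⟨hz, hzk⟩, Bool.decide_and, Bool.decide_and] at dD
    have eBA := hL _ mA _ mB nAB
    have eCB := hL _ mB _ mC nBC
    have eDC := hL _ mC _ mD nCD
    have eAD := hL _ mD _ mA nDA
    simp only [lay, Bool.and_eq_true]
    refine ⟨⟨⟨⟨⟨?_, ?_⟩, ?_⟩, ?_⟩, ?_⟩, ?_⟩
    · rw [← eAD]
      simp only [cok, Bool.or_eq_true, beq_iff_eq]
      exact dA
    · rw [← eBA]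
      simp only [cok, Bool.or_eq_true, beq_iff_eq]
      exact dB
    · rw [← eCB]
      simp only [cok, Bool.or_eq_true, beq_iff_eq]
      have : (decide (T (2, 2, z) < T (3 - 2, 2, z))) = L (C z) (D z) := rfl
      have h' : (decide (T (2, 2, z) < T (2, 3 - 2, z))) = L (C z) (B z) := rfl
      rw [this, h'] at dC
      rcases dC with dC | dC
      · left
        rw [← dC]
        simp only [L, C]
        ring
      · right
        rw [← dC]
        simp only [L, C]
        ring
    · rw [← eDC]
      simp only [cok, Bool.or_eq_true, beq_iff_eq]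
      have : (decide (T (1, 2, z) < T (3 - 1, 2, z))) = L (D z) (C z) := rfl
      have h' : (decide (T (1, 2, z) < T (1, 3 - 2, z))) = L (D z) (A z) := rfl
      rw [this, h'] at dD
      rcases dD with dD | dD
      · left
        rw [← dD]
      · right
        rw [← dD]
    · rw [Bool.not_eq_true']
      by_contra hc
      rw [Bool.not_eq_false] at hc
      simp only [L, Bool.and_eq_true, decide_eq_true_eq] at hc
      omega
    · rw [← eBA, ← eCB, ← eDC, ← eAD, Bool.not_eq_true']
      by_contra hc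
      rw [Bool.not_eq_false] at hc
      simp only [L, Bool.and_eq_true, decide_eq_true_eq] at hc
      omega
  let ab : ℕ → Bool := fun z => L (A z) (B z)
  let bc : ℕ → Bool := fun z => L (B z) (C z)
  let cd : ℕ → Bool := fun z => L (C z) (D z)
  let da : ℕ → Bool := fun z => L (D z) (A z)
  let uA : ℕ → Bool := fun z => decide (z < k) && L (A z) (A (z + 1))
  let uB : ℕ → Bool := fun z => decide (z < k) && L (B z) (B (z + 1))
  let uC : ℕ → Bool := fun z => decide (z < k) && L (C z) (C (z + 1))
  let uD : ℕ → Bool := fun z => decide (z < k) && L (D z) (D (z + 1))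
  have hflip : ∀ (x y z : ℕ), (1 ≤ x ∧ x ≤ 2) → (1 ≤ y ∧ y ≤ 2) → 1 ≤ z → z + 1 ≤ k →
      L (x, y, z + 1) (x, y, z) = !(decide (z < k) && L (x, y, z) (x, y, z + 1)) := by
    intro x y z hx hy hz hzk
    have h : decide (z < k) = true := by simp; omega
    rw [h, Bool.true_and]
    exact hL _ (by rw [mem_box22]; omega) _ (by rw [mem_box22]; omega) (by simp [Nbr])
  have hup : ∀ z, 1 ≤ z → z + 1 ≤ k →
      lay (!uA z) (!uB z) (!uC z) (!uD z) (ab (z + 1)) (bc (z + 1)) (cd (z + 1)) (da (z + 1))
        (uA (z + 1)) (uB (z + 1)) (uC (z + 1)) (uD (z + 1)) = true := by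
    intro z hz hzk
    have h := hlay (z + 1) (by omega) hzk
    have h2 : decide (2 ≤ z + 1) = true := by simp; omega
    rw [h2, Bool.true_and, Bool.true_and, Bool.true_and, Bool.true_and, Nat.add_sub_cancel] at h
    have fA : L (A (z + 1)) (A z) = !uA z := hflip 1 1 z (by omega) (by omega) hz hzk
    have fB : L (B (z + 1)) (B z) = !uB z := hflip 2 1 z (by omega) (by omega) hz hzk
    have fC : L (C (z + 1)) (C z) = !uC z := hflip 2 2 z (by omega) (by omega) hz hzk
    have fD : L (D (z + 1)) (D z) = !uD z := hflip 1 2 z (by omega) (by omega) hz hzk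
    rw [fA, fB, fC, fD] at h
    exact h
  have s1 : P1 (uA 1) (uB 1) (uC 1) (uD 1) = true := by
    have h := hlay 1 le_rfl (by omega)
    have h2 : decide (2 ≤ 1) = false := by decide
    rw [h2, Bool.false_and, Bool.false_and, Bool.false_and, Bool.false_and] at h
    exact step1 _ _ _ _ _ _ _ _ h
  have s2 := step2 _ _ _ _ s1 _ _ _ _ _ _ _ _ (hup 1 le_rfl (by omega))
  have s3 := step3 _ _ _ _ s2 _ _ _ _ _ _ _ _ (hup 2 (by omega) (by omega))
  have hlast : uA k = false ∧ uB k = false ∧ uC k = false ∧ uD k = false := by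
    have h : decide (k < k) = false := by simp
    simp only [uA, uB, uC, uD, h, Bool.false_and, and_self]
  have hu : ∀ z, z < k → uA z = L (A z) (A (z + 1)) ∧ uB z = L (B z) (B (z + 1)) ∧
      uC z = L (C z) (C (z + 1)) ∧ uD z = L (D z) (D (z + 1)) := by
    intro z hz
    have h : decide (z < k) = true := by simpa using hz
    simp only [uA, uB, uC, uD, h, Bool.true_and, and_self]
  rcases Nat.lt_or_ge k 4 with hk4 | hk4
  · have : k = 3 := by omega
    subst this
    obtain ⟨l1, l2, l3, l4⟩ := hlast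
    change P3 (uA 3) (uB 3) (uC 3) (uD 3) = true at s3
    rw [l1, l2, l3, l4] at s3
    exact absurd s3 (by decide)
  have l4 := hup 3 (by omega) (by omega)
  rcases Nat.lt_or_ge k 5 with hk5' | hk5'
  · have : k = 4 := by omega
    subst this
    obtain ⟨m1, m2, m3, m4⟩ := hlast
    rw [m1, m2, m3, m4] at l4
    exact end4 _ _ _ _ s3 _ _ _ _ l4
  have hk6 : 6 ≤ k := by omega
  have l5 := hup 4 (by omega) (by omega)
  obtain ⟨q1, q2, q3, q4⟩ := hu 4 (by omega)
  have hface : ∀ (p q p' q' : Cube), face (L p p') (L q q') (L p q) (L p' q') = true := by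
    intro p q p' q'
    simp only [face, L, Bool.and_eq_true, Bool.not_eq_true']
    constructor
    · by_contra hc
      rw [Bool.not_eq_false] at hc
      simp only [Bool.and_eq_true, Bool.not_eq_true', decide_eq_true_eq,
        decide_eq_false_iff_not] at hc
      omega
    · by_contra hc
      rw [Bool.not_eq_false] at hc
      simp only [Bool.and_eq_true, Bool.not_eq_true', decide_eq_true_eq,
        decide_eq_false_iff_not] at hc
      omega
  have hhexa : ∀ (x y z x' z' w' : Cube),
      hexa (L x x') (L z z') (L x y) (L y z) (L z' w') (L w' x') = true := by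
    intro x y z x' z' w'
    simp only [hexa, L, Bool.and_eq_true, Bool.not_eq_true']
    constructor
    · by_contra hc
      rw [Bool.not_eq_false] at hc
      simp only [Bool.and_eq_true, Bool.not_eq_true', decide_eq_true_eq,
        decide_eq_false_iff_not] at hc
      omega
    · by_contra hc
      rw [Bool.not_eq_false] at hc
      simp only [Bool.and_eq_true, Bool.not_eq_true', decide_eq_true_eq,
        decide_eq_false_iff_not] at hc
      omega
  have s5 := step5 _ _ _ _ s3 _ _ _ _ _ _ _ _ l4 _ _ _ _ _ _ _ _ l5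
    (by rw [q1, q2]; exact hface _ _ _ _) (by rw [q2, q3]; exact hface _ _ _ _)
    (by rw [q3, q4]; exact hface _ _ _ _) (by rw [q4, q1]; exact hface _ _ _ _)
    (by rw [q1, q3]; exact hhexa _ _ _ _ _ _) (by rw [q3, q1]; exact hhexa _ _ _ _ _ _)
    (by rw [q2, q4]; exact hhexa _ _ _ _ _ _) (by rw [q4, q2]; exact hhexa _ _ _ _ _ _)
  obtain ⟨r1, r2, r3, r4⟩ := s5
  have l6 := hup 5 (by omega) (by omega)
  change uA 5 = false at r1
  change uB 5 = false at r2
  change uC 5 = false at r3
  change uD 5 = false at r4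
  rw [r1, r2, r3, r4] at l6
  exact end6 _ _ _ _ _ _ _ _ l6

/-- The three statements: (a) is true; (b) and (c) fail, already for `k = 9` and `k = 6`. -/
theorem result :
    (∀ k, 3 ≤ k → k ≠ 5 → ¬ HasSolution 2 2 k) ∧ HasSolution 2 3 9 ∧ HasSolution 3 3 6 :=
  ⟨no22, sol239, sol336⟩

end Pool.Agent.Results.MP_93d976_co.ThinCuboids
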